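import Pool.Agent.Helper79.GPW.Diff

set_option autoImplicit false

namespace Pool.Agent.Results.MP_9967f4_co.FactorComplexity

/-- The two involutory antimorphisms of binary words (`false`, `true` are the letters 0, 1):
reversal `R` and the exchange antimorphism `E`. -/
inductive Anti
  | E
  | R

/-- The image of a word under the antimorphism. -/
def Anti.app : Anti → List Bool → List Bool
  | .R, w => w.reverse
  | .E, w => w.reverse.map (fun a => !a)

/-- `w` is a `ϑ`-palindrome. -/
def IsThetaPal (ϑ : Anti) (w : List Bool) : Prop := ϑ.app w = w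

/-- `x` is a `ϑ`-palindromic closure of `w`: a shortest `ϑ`-palindrome having `w` as a first
part. -/
def IsClosure (ϑ : Anti) (w x : List Bool) : Prop :=
  IsThetaPal ϑ x ∧ w <+: x ∧ ∀ y : List Bool, IsThetaPal ϑ y → w <+: y → x.length ≤ y.length

/-- `u` is the generalized pseudostandard word `u(Δ,Θ)`: with `w₀ = ε` and
`w_{k+1} = (w_k δ_{k+1})^{ϑ_{k+1}}` (indices shifted by one), every `w_k` is the beginning of
`u` of its length. -/
def IsPseudostandard (Δ : ℕ → Bool) (Θ : ℕ → Anti) (u : ℕ → Bool) : Prop :=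
  ∃ W : ℕ → List Bool, W 0 = [] ∧ (∀ k, IsClosure (Θ k) (W k ++ [Δ k]) (W (k + 1))) ∧
    ∀ k, W k = (List.range (W k).length).map u

/-- The set of factors of `u` of length `n`. -/
def Factors (u : ℕ → Bool) (n : ℕ) : Set (List Bool) :=
  {f | ∃ i, f = (List.range n).map (fun j => u (i + j))}

theorem app_append (ϑ : Anti) (x y : List Bool) : ϑ.app (x ++ y) = ϑ.app y ++ ϑ.app x := by
  cases ϑ <;> simp [Anti.app]

theorem app_app (ϑ : Anti) (x : List Bool) : ϑ.app (ϑ.app x) = x := by
  cases ϑ <;> simp [Anti.app, List.map_reverse, Function.comp_def]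

theorem app_length (ϑ : Anti) (x : List Bool) : (ϑ.app x).length = x.length := by
  cases ϑ <;> simp [Anti.app]

theorem double_pal (ϑ : Anti) (w : List Bool) : IsThetaPal ϑ (w ++ ϑ.app w) := by
  unfold IsThetaPal
  rw [app_append, app_app]

theorem closure_exists (ϑ : Anti) (w : List Bool) : ∃ x, IsClosure ϑ w x := by
  classical
  have hex : ∃ n, ∃ x : List Bool, x.length = n ∧ IsThetaPal ϑ x ∧ w <+: x :=
    ⟨_, w ++ ϑ.app w, rfl, double_pal ϑ w, List.prefix_append _ _⟩
  obtain ⟨x, h1, h2, h3⟩ := Nat.find_spec hex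
  refine ⟨x, h2, h3, ?_⟩
  intro y h4 h5
  rw [h1]
  exact Nat.find_min' hex ⟨y, rfl, h4, h5⟩

theorem closure_form {ϑ : Anti} {w x : List Bool} (h : IsClosure ϑ w x) :
    x = w.take (x.length - w.length) ++ ϑ.app w := by
  obtain ⟨h1, h2, h3⟩ := h
  have hl := h3 _ (double_pal ϑ w) (List.prefix_append _ _)
  rw [List.length_append, app_length] at hl
  obtain ⟨s, hs⟩ := h2
  have h4 : x = ϑ.app s ++ ϑ.app w := by
    rw [← app_append, hs]; exact h1.symm
  have h5 : (ϑ.app s).length = x.length - w.length := by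
    have := congrArg List.length h4
    rw [List.length_append, app_length ϑ w] at this
    omega
  have h6 : ϑ.app s = x.take (x.length - w.length) := by
    rw [← h5]
    conv_rhs => rw [h4]
    simp
  have h7 : x.take (x.length - w.length) = w.take (x.length - w.length) := by
    conv_lhs => rw [← hs]
    have : (w ++ s).length = x.length := by rw [hs]
    rw [this, List.take_append_of_le_length (by omega)]
  conv_lhs => rw [h4, h6, h7]

theorem closure_unique {ϑ : Anti} {w x y : List Bool} (hx : IsClosure ϑ w x)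
    (hy : IsClosure ϑ w y) : x = y := by
  have hl : x.length = y.length :=
    le_antisymm (hx.2.2 y hy.1 hy.2.1) (hy.2.2 x hx.1 hx.2.1)
  rw [closure_form hx, closure_form hy, hl]

theorem step_prefix {Δ : ℕ → Bool} {Θ : ℕ → Anti} {W : ℕ → List Bool}
    (hW : ∀ k, IsClosure (Θ k) (W k ++ [Δ k]) (W (k + 1))) (k : ℕ) : W k <+: W (k+1) :=
  (List.prefix_append _ _).trans (hW k).2.1

theorem len_succ {Δ : ℕ → Bool} {Θ : ℕ → Anti} {W : ℕ → List Bool}
    (hW : ∀ k, IsClosure (Θ k) (W k ++ [Δ k]) (W (k + 1))) (k : ℕ) :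
    (W k).length < (W (k+1)).length := by
  have := (hW k).2.1.length_le
  simp at this; omega

theorem le_len {Δ : ℕ → Bool} {Θ : ℕ → Anti} {W : ℕ → List Bool}
    (hW : ∀ k, IsClosure (Θ k) (W k ++ [Δ k]) (W (k + 1))) (k : ℕ) : k ≤ (W k).length := by
  have : StrictMono (fun k => (W k).length) := strictMono_nat_of_lt_succ (len_succ hW)
  exact this.le_apply

theorem chain {Δ : ℕ → Bool} {Θ : ℕ → Anti} {W : ℕ → List Bool}
    (hW : ∀ k, IsClosure (Θ k) (W k ++ [Δ k]) (W (k + 1))) (k d : ℕ) : W k <+: W (k+d) := by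
  induction d with
  | zero => exact List.prefix_rfl
  | succ d ih => exact ih.trans (step_prefix hW (k+d))

theorem word_exists (Δ : ℕ → Bool) (Θ : ℕ → Anti) : ∃ u, IsPseudostandard Δ Θ u := by
  classical
  let W : ℕ → List Bool := fun k =>
    Nat.rec [] (fun k w => Classical.choose (closure_exists (Θ k) (w ++ [Δ k]))) k
  have hW : ∀ k, IsClosure (Θ k) (W k ++ [Δ k]) (W (k + 1)) := fun k =>
    Classical.choose_spec (closure_exists (Θ k) (W k ++ [Δ k]))
  refine ⟨fun i => (W (i+1)).getD i false, W, rfl, hW, ?_⟩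
  intro k
  apply List.ext_getElem
  · simp
  · intro i h1 h2
    have h3 : i < (W (i+1)).length := le_len hW (i+1)
    simp only [List.getElem_map, List.getElem_range]
    rw [List.getD_eq_getElem _ _ h3]
    have h4 := (chain hW k (i+1)).getElem h1
    have h5 := (chain hW (i+1) k).getElem h3
    rw [h4, h5]
    congr 1
    rw [Nat.add_comm]

theorem word_unique {Δ : ℕ → Bool} {Θ : ℕ → Anti} {u u' : ℕ → Bool}
    (h : IsPseudostandard Δ Θ u) (h' : IsPseudostandard Δ Θ u') : u = u' := by
  obtain ⟨W, h0, hW, hu⟩ := h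
  obtain ⟨W', h0', hW', hu'⟩ := h'
  have hWW : ∀ k, W k = W' k := by
    intro k
    induction k with
    | zero => rw [h0, h0']
    | succ k ih =>
      have := hW k
      rw [ih] at this
      exact closure_unique this (hW' k)
  funext i
  have h1 := hu (i+1)
  have h2 := hu' (i+1)
  rw [← hWW] at h2
  have h3 : i < (W (i+1)).length := le_len hW (i+1)
  have h4 : (List.range (W (i+1)).length).map u = (List.range (W (i+1)).length).map u' := by
    rw [← h1, ← h2]
  have h5 : ∀ j < (W (i+1)).length, u j = u' j := by simpa using h4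
  exact h5 i h3

open GPW

theorem thetaPal_iff (ϑ : Anti) (x : Bool) (s : List Bool) :
    IsThetaPal ϑ (integ x s) ↔ Pal s ∧ par s = (match ϑ with | .E => true | .R => false) := by
  cases ϑ
  · exact integ_E
  · exact integ_R

theorem enum_of_word {Δ : ℕ → Bool} {Θ : ℕ → Anti} {u : ℕ → Bool}
    (h : IsPseudostandard Δ Θ u) : ∃ A, Enum (dif u) A := by
  obtain ⟨W, h0, hW, hu⟩ := h
  have hu' : ∀ k, W k = pre u (W k).length := hu
  -- lengths
  let L : ℕ → ℕ := fun j => (W (j+1)).length - 1
  have hL : ∀ j, (W (j+1)).length = L j + 1 := by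
    intro j
    have := le_len hW (j+1)
    change _ = (W (j+1)).length - 1 + 1
    omega
  have hWL : ∀ j, W (j+1) = integ (u 0) (pre (dif u) (L j)) := by
    intro j
    rw [← pre_integ, ← hL]; exact hu' _
  have hpp : ∀ j, Pal (pre (dif u) (L j)) ∧
      par (pre (dif u) (L j)) = (match Θ j with | .E => true | .R => false) := by
    intro j
    rw [← thetaPal_iff (Θ j) (u 0), ← hWL]
    exact (hW j).1
  apply enum_exists (v := dif u) (L := L)
  · -- first step
    have h1 : (W 1).length ≤ 2 := by
      have := (hW 0).2.2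
      rw [h0] at this
      have h2 := this _ (double_pal (Θ 0) ([] ++ [Δ 0])) (List.prefix_append _ _)
      rw [List.length_append, app_length] at h2
      simpa using h2
    have := hL 0
    simp only [zero_add] at this
    omega
  · refine strictMono_nat_of_lt_succ ?_
    intro j
    have h1 := hL j
    have h2 := hL (j+1)
    have h3 := len_succ hW (j+1)
    omega
  · intro j; exact (hpp j).1
  · intro j Y h1 h2 h3
    have h4 : IsThetaPal (Θ (j+1)) (integ (u 0) Y) := by
      rw [thetaPal_iff]
      exact ⟨h1, h2.trans (hpp (j+1)).2⟩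
    have h5 : W (j+1) ++ [Δ (j+1)] <+: integ (u 0) Y := by
      have h6 : W (j+1) ++ [Δ (j+1)] = pre u (L j + 1 + 1) := by
        have h7 : W (j+1) ++ [Δ (j+1)] <+: pre u (W (j+2)).length := by
          rw [← hu']; exact (hW (j+1)).2.1
        have h8 := eq_pre_of_prefix h7
        rw [h8, List.length_append, hL]
        rfl
      rw [h6, pre_integ]
      exact integ_prefix _ h3
    have h6 := (hW (j+1)).2.2 _ h4 h5
    rw [hL, integ_length] at h6
    omega

/-- Every pair `(Δ,Θ)` determines exactly one binary generalized pseudostandard word `u`, and its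
factor complexity satisfies `C_u(n) < 6 n` for all `n ≥ 1`; more precisely
`C_u(n) ≤ 6 (n - 1)` for all `n ≥ 2`. -/
theorem result :
    (∀ (Δ : ℕ → Bool) (Θ : ℕ → Anti), ∃! u : ℕ → Bool, IsPseudostandard Δ Θ u) ∧
    ∀ (Δ : ℕ → Bool) (Θ : ℕ → Anti) (u : ℕ → Bool), IsPseudostandard Δ Θ u → ∀ n : ℕ, 1 ≤ n →
      (Factors u n).Finite ∧ (Factors u n).ncard < 6 * n ∧
        (2 ≤ n → (Factors u n).ncard ≤ 6 * (n - 1)) := by
  refine ⟨fun Δ Θ => ?_, ?_⟩
  · obtain ⟨u, hu⟩ := word_exists Δ Θ
    exact ⟨u, hu, fun u' hu' => word_unique hu' hu⟩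
  · intro Δ Θ u hu n hn
    obtain ⟨A, hA⟩ := enum_of_word hu
    have h1 : Factors u n = fac u n := rfl
    rw [h1]
    refine ⟨fac_finite u n, ?_⟩
    have key : 2 ≤ n → (fac u n).ncard ≤ 6 * (n - 1) := by
      intro h2
      have h3 := fac_le u (n-1)
      rw [Nat.sub_add_cancel hn] at h3
      have h4 := bound_v hA (m := n-1) (by omega)
      omega
    refine ⟨?_, key⟩
    rcases Nat.lt_or_ge n 2 with h2 | h2
    · have : n = 1 := by omega
      subst this
      have := fac_one u
      omega
    · have := key h2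
      omega

end Pool.Agent.Results.MP_9967f4_co.FactorComplexity
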